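import Pool.Agent.MP_cce4c9_lc.H87.SpecR

/-!
The search for a basis returns the trace.
-/

set_option autoImplicit false

open Polynomial

namespace Pool.Agent.MP_cce4c9_lc.H44

open Pool.Agent.MP_cce4c9_lc.H87

theorem getD_map_range {α : Type} {r i : ℕ} (c : ℕ → α) (d : α) (hi : i < r) :
    ((List.range r).map c).getD i d = c i := by
  simp [List.getD_eq_getElem?_getD, hi]

theorem tb_pw {B : Ds} {k : Type} [Field k] {φ : El → k} (h : Hm B φ) {q : ℕ} (hq : q ≠ 0)
    (w : Tab) : tb φ (w.map (List.map fun a => pw B a q)) = fun e J => tb φ w e J ^ q := by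
  funext e J
  simp only [tb, ent, List.getD_eq_getElem?_getD, List.getElem?_map]
  cases w[e]? with
  | none => simp [h.nil, hq]
  | some s =>
    simp only [Option.map_some, Option.getD_some, List.getElem?_map]
    cases s[J]? with
    | none => simp [h.nil, hq]
    | some a => simp [h.pw]

section lin
variable {l : ℕ} [Fact l.Prime] {M : Type} [AddCommGroup M] [Module (ZMod l) M]

theorem sum_cast (r : ℕ) (a : ℕ → ℕ) (x : ℕ → M) :
    ∑ i ∈ Finset.range r, a i • x i = ∑ i : Fin r, ((a i : ℕ) : ZMod l) • x i := by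
  rw [Finset.sum_range]
  exact Finset.sum_congr rfl fun i _ => (Nat.cast_smul_eq_nsmul _ _ _).symm

theorem ofFn_mem {r : ℕ} (g : Fin r → ZMod l) :
    List.ofFn (fun i => (g i).val) ∈ tuples (List.range l) r :=
  mem_tuples.2 ⟨by simp, fun a ha => by
    obtain ⟨i, rfl⟩ := List.mem_ofFn.1 ha
    exact List.mem_range.2 (ZMod.val_lt _)⟩

theorem ofFn_cast {r : ℕ} (g : Fin r → ZMod l) (i : Fin r) :
    (((List.ofFn fun i => (g i).val).getD i 0 : ℕ) : ZMod l) = g i := by
  simp [List.getD_eq_getElem?_getD]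

theorem ind_iff (r : ℕ) (x : ℕ → M) :
    (∀ a ∈ tuples (List.range l) r, a.sum ≠ 0 → ∑ i ∈ Finset.range r, a.getD i 0 • x i ≠ 0) ↔
      LinearIndependent (ZMod l) fun i : Fin r => x i := by
  rw [Fintype.linearIndependent_iff]
  constructor
  · intro h g hg i
    have := h _ (ofFn_mem g)
    rw [sum_cast (l := l)] at this
    simp only [ofFn_cast, hg, ne_eq, not_true_eq_false, imp_false, not_not] at this
    exact (ZMod.val_eq_zero _).1 (List.sum_eq_zero_iff.1 this _ (List.mem_ofFn.2 ⟨i, rfl⟩))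
  · intro h a ha hs h0
    obtain ⟨a1, a2⟩ := mem_tuples.1 ha
    rw [sum_cast (l := l)] at h0
    refine hs (List.sum_eq_zero_iff.2 fun c hc => ?_)
    obtain ⟨i, hi, rfl⟩ := List.getElem_of_mem hc
    have := h _ h0 ⟨i, a1 ▸ hi⟩
    rw [List.getD_eq_getElem _ _ hi, ZMod.natCast_eq_zero_iff] at this
    exact Nat.eq_zero_of_dvd_of_lt this (List.mem_range.1 (a2 _ hc))

theorem pred_smul (x y : M) : (l - 1) • x + y = 0 ↔ x = y := by
  have e : (l - 1) • x = -x := by
    rw [← Nat.cast_smul_eq_nsmul (ZMod l), Nat.cast_sub (Fact.out : l.Prime).one_le]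
    simp
  rw [e, neg_add_eq_zero]

theorem trace_eq [Module.Finite (ZMod l) M] {S T : M →ₗ[ZMod l] M} (hT : ∀ x, T (S x) = x)
    {r : ℕ} (hr : r = Module.finrank (ZMod l) M) {x : Fin r → M}
    (hx : LinearIndependent (ZMod l) x) :
    ∃ b : Module.Basis (Fin r) (ZMod l) M, (∀ i, b i = S (x i)) ∧
      LinearMap.trace (ZMod l) M T = ∑ i, b.repr (x i) i := by
  have hS : LinearIndependent (ZMod l) (S ∘ x) :=
    hx.map' S (LinearMap.ker_eq_bot.2 (Function.LeftInverse.injective hT))
  let b := basisOfLinearIndependentOfCardEqFinrank' _ hS (by simpa using hr)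
  have hb : ∀ i, b i = S (x i) := fun i => by simp [b]
  refine ⟨b, hb, ?_⟩
  rw [LinearMap.trace_eq_matrix_trace (ZMod l) b, Matrix.trace]
  exact Finset.sum_congr rfl fun i _ => by rw [Matrix.diag, LinearMap.toMatrix_apply, hb, hT]

end lin

section sk
variable {F k : Type} [Field F] [Field k] {D : Ds} {π : Pres D F} {ι : F →+* k} {l V : ℕ}
  {u : List El} {pats : List Pat} {dat : Ds → Pat → List El → El × Tab}
  {tst : Ds → List Tab → List ℕ → El} {M : Type} [AddCommGroup M]
  {Rp : (ℕ → ℕ → k) → M → Prop}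

/-- A point of the tower with prescribed values of the roots. -/
theorem exists_pt {R' : Type} [CommRing R'] {n : ℕ} (W : Tow π u n R') (y : ℕ → k)
    (hy : ∀ i < n, (toM (fun a => ι (π.val a)) u).eval (y i) = 0) :
    ∃ P : R' →+* k, (∀ c, P (W.inc c) = ι c) ∧
      ∀ i < n, P (W.π'.val ((tower D u n).2.getD i [])) = y i :=
  W.univ k ι y fun i hi => by rw [eval₂_eq_eval_map, toM_map, hy i hi]

theorem card_le {S : M → M} (h : Sk π ι l V u pats dat tst Rp S) :
    Finite M ∧ Nat.card M ≤ pats.length * u.length ^ V := by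
  classical
  choose pat hp a ha hc using h.cpl
  obtain ⟨R', _, ⟨W⟩⟩ := exists_tow π h.ne V
  let g := toM (fun y => ι (π.val y)) u
  let Z := pats.toFinset ×ˢ Fintype.piFinset fun _ : Fin V => g.roots.toFinset
  let f : M → Z := fun x => ⟨(pat x, a x), Finset.mem_product.2 ⟨List.mem_toFinset.2 (hp x),
    Fintype.mem_piFinset.2 fun i => Multiset.mem_toFinset.2
      ((mem_roots (toM_monic _ _).ne_zero).2 (ha x i))⟩⟩
  have hf : Function.Injective f := fun x x' e => by
    have e1 : pat x = pat x' := congrArg (fun z : Z => z.1.1) e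
    have e2 : a x = a x' := congrArg (fun z : Z => z.1.2) e
    obtain ⟨P, p1, p2⟩ := exists_pt (ι := ι) W (ex (a x)) fun i hi => by
      rw [ex, dif_pos hi, ha]
    have hb : ∀ i, P (W.π'.val ((tower D u V).2.getD i [])) = ex (a x) i := fun i => by
      by_cases hi : i < V
      · exact p2 i hi
      · rw [List.getD_eq_default _ _ (by rw [W.len]; omega), W.π'.hm.nil, map_zero, ex,
          dif_neg hi]
    exact h.fn _ _ _ (hc x _ _ _ (W.isPt h.ne P p1) hb).2
      (e1 ▸ (hc x' _ _ _ (W.isPt h.ne P p1) (e2 ▸ hb)).2)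
  refine ⟨Finite.of_injective f hf, (Nat.card_le_card_of_injective f hf).trans ?_⟩
  rw [Nat.card_eq_fintype_card, Fintype.card_coe, Finset.card_product, Fintype.card_piFinset,
    Finset.prod_const, Finset.card_univ, Fintype.card_fin]
  refine Nat.mul_le_mul (List.toFinset_card_le _) (Nat.pow_le_pow_left ?_ _)
  exact (Multiset.toFinset_card_le _).trans ((card_roots' g).trans (toM_natDegree _ _).le)

theorem indR_iff {S : M → M} (h : Sk π ι l V u pats dat tst Rp S) {B : Ds} {φ : El → k}
    (hφ : IsPt π ι B φ) {r : ℕ} (c : ℕ → El × Tab) {A : List (List ℕ)}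
    (hA : A ∈ tuples (tuples (List.range l) r) r) (x : ℕ → M)
    (hx : ∀ i < r, Rp (tb φ (c i).2) (x i)) :
    φ (indR B (D.1 ^ D.2.length) l tst r ((List.range r).map c) A) ≠ 0 ↔
      (∀ i < r, φ (c i).1 ≠ 0) ∧
      (∀ a ∈ tuples (List.range l) r, a.sum ≠ 0 → ∑ i ∈ Finset.range r, a.getD i 0 • x i ≠ 0) ∧
      ∀ i < r, (l - 1) • x i + ∑ j ∈ Finset.range r, (A.getD i []).getD j 0 • S (x j) = 0 := by
  classical
  have hm := hφ.hm
  have hle : ∀ a ∈ tuples (List.range l) r, a.length = r ∧ ∀ t ∈ a, t ≤ l := fun a ha =>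
    ⟨(mem_tuples.1 ha).1, fun t ht => (List.mem_range.1 ((mem_tuples.1 ha).2 t ht)).le⟩
  have hlen : (((List.range r).map c).map Prod.snd).length = r := by simp
  have hget : ∀ i < r, (((List.range r).map c).map Prod.snd).getD i [] = (c i).2 := fun i hi => by
    rw [List.map_map, getD_map_range _ _ hi]
    rfl
  rw [indR, hm.mul, hm.mul, mul_ne_zero_iff, mul_ne_zero_iff, and_assoc, hm.prodL_range]
  refine and_congr ?_ (and_congr ?_ ?_)
  · rw [List.map_map, hm.prodL_range, Finset.prod_ne_zero_iff]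
    simp
  · rw [hm.prodL, List.map_map, ne_eq, List.prod_eq_zero_iff, List.mem_map]
    simp only [List.mem_filter, not_exists, not_and, and_imp, bne_iff_ne]
    refine forall₂_congr fun a ha => imp_congr_right fun _ => ?_
    rw [Function.comp_apply, hm.sub, hm.cst, h.tst B φ _ a x hφ (by rw [hlen, (hle a ha).1])
      (hle a ha).2 fun i hi => by rw [hlen] at hi; rw [hget i hi]; exact hx i hi, hlen]
    split_ifs with e
    · exact iff_of_false (by simp) (not_not.2 e)
    · exact iff_of_true (by simp) e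
  · rw [Finset.prod_ne_zero_iff]
    refine forall_congr' fun i => ?_
    rw [Finset.mem_range]
    refine imp_congr_right fun hi => ?_
    have hAi : A.getD i [] ∈ tuples (List.range l) r := by
      have hi' : i < A.length := (mem_tuples.1 hA).1 ▸ hi
      rw [List.getD_eq_getElem _ _ hi']
      exact (mem_tuples.1 hA).2 _ (List.getElem_mem hi')
    rw [h.tst B φ _ _ (fun j => Nat.casesOn j (x i) fun j => S (x j)) hφ
      (by simp only [List.length_cons, List.length_map, List.length_range, (hle _ hAi).1]) (by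
        intro t ht
        rcases List.mem_cons.1 ht with rfl | ht
        · omega
        · exact (hle _ hAi).2 t ht) (by
        rintro (_ | j) hj
        · rw [List.getD_cons_zero, hget i hi]
          exact hx i hi
        · have hj' : j < r := by simpa using hj
          rw [List.getD_cons_succ, List.map_map, List.map_map, getD_map_range _ _ hj']
          exact (tb_pw hm (pow_ne_zero _ π.prime.ne_zero) (c j).2).symm ▸ h.fr _ _ (hx j hj'))]
    rw [List.length_cons, List.length_map, hlen, Finset.sum_range_succ', add_comm]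
    simp only [List.getD_cons_succ, List.getD_cons_zero]
    split_ifs with e
    · exact iff_of_true one_ne_zero e
    · exact iff_of_false (by simp) e

theorem fst_of_indR {B : Ds} {φ : El → k} (hm : Hm B φ) {q r : ℕ} (c : ℕ → El × Tab)
    {A : List (List ℕ)} (h : φ (indR B q l tst r ((List.range r).map c) A) ≠ 0) :
    ∀ i < r, φ (c i).1 ≠ 0 := by
  rw [indR, hm.mul, hm.mul, mul_ne_zero_iff, mul_ne_zero_iff, List.map_map, hm.prodL_range,
    Finset.prod_ne_zero_iff] at h
  exact fun i hi => h.1.1 i (Finset.mem_range.2 hi)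

variable [IsAlgClosed k] [Fact l.Prime] [Module (ZMod l) M]

theorem sound {S : M → M} (h : Sk π ι l V u pats dat tst Rp S) {r t : ℕ}
    (ht : t ∈ tryR D u V l pats dat tst r) :
    ∃ (x : Fin r → M) (A : Fin r → Fin r → ZMod l), LinearIndependent (ZMod l) x ∧
      (∀ i, x i = ∑ j, A i j • S (x j)) ∧ (t : ZMod l) = ∑ i, A i i := by
  obtain ⟨ps, hps, ht⟩ := List.mem_flatMap.1 ht
  obtain ⟨A, hA, rfl⟩ := List.mem_map.1 ht
  obtain ⟨hA, hp⟩ := List.mem_filter.1 hA
  obtain ⟨R', _, ⟨W⟩⟩ := exists_tow π h.ne (V * r)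
  obtain ⟨P, p1, p2⟩ := (W.π'.hasPt_iff W.inc ι _).1 hp
  have hφ := W.isPt h.ne P p1
  have h1 := fst_of_indR hφ.hm _ p2
  have h2 : ∀ i, ∃ x, i < r → Rp (tb (fun a => P (W.π'.val a)) (dat (tower D u (V * r)).1
      (ps.getD i ([], [], [])) (((tower D u (V * r)).2.drop (V * i)).take V)).2) x := fun i => by
    by_cases hi : i < r
    · have hi' : i < ps.length := (mem_tuples.1 hps).1 ▸ hi
      obtain ⟨x, hx⟩ := h.snd _ _ _ _ (by
        rw [List.getD_eq_getElem _ _ hi']
        exact (mem_tuples.1 hps).2 _ (List.getElem_mem hi')) hφ (h1 i hi)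
      exact ⟨x, fun _ => hx⟩
    · exact ⟨0, fun a => absurd a hi⟩
  choose x hx using h2
  obtain ⟨-, h3, h4⟩ := (indR_iff h hφ _ hA x hx).1 p2
  refine ⟨fun i => x i, fun i j => ((A.getD i []).getD j 0 : ℕ), (ind_iff r x).1 h3, fun i => ?_,
    ?_⟩
  · rw [← sum_cast r (fun j => (A.getD i []).getD j 0) fun j => S (x j)]
    exact (pred_smul _ _).1 (h4 i i.2)
  · rw [sum_map_range, Finset.sum_range, Nat.cast_sum]

theorem complete {S : M → M} (h : Sk π ι l V u pats dat tst Rp S) {r : ℕ} (x : Fin r → M)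
    (A : Fin r → Fin r → ZMod l) (h1 : LinearIndependent (ZMod l) x)
    (h2 : ∀ i, x i = ∑ j, A i j • S (x j)) : tryR D u V l pats dat tst r ≠ [] := by
  choose pat hp a ha hc using h.cpl
  obtain ⟨R', _, ⟨W⟩⟩ := exists_tow π h.ne (V * r)
  obtain ⟨P, p1, p2⟩ := exists_pt (ι := ι) W (fun n => ex (a (ex x (n / V))) (n % V))
    fun i hi => by
      have hV : 0 < V := Nat.pos_of_ne_zero fun e => by simp [e] at hi
      rw [ex, dif_pos (Nat.mod_lt _ hV), ha]
  have hφ := W.isPt h.ne P p1
  have hx : ∀ i : Fin r, ex x i = x i := fun i => by simp [ex]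
  have hb : ∀ i < r, ∀ j, P (W.π'.val ((((tower D u (V * r)).2.drop (V * i)).take V).getD j [])) =
      ex (a (ex x i)) j := fun i hi j => by
    by_cases hj : j < V
    · have := p2 (V * i + j) (by nlinarith)
      rw [Nat.mul_add_div (by omega), Nat.div_eq_of_lt hj, add_zero, Nat.mul_add_mod,
        Nat.mod_eq_of_lt hj] at this
      rw [← this]
      simp [List.getD_eq_getElem?_getD, hj]
    · rw [List.getD_eq_default _ _ (by simp; omega), W.π'.hm.nil, map_zero, ex, dif_neg hj]
  let ps := (List.range r).map fun i => pat (ex x i)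
  let AL := List.ofFn fun i => List.ofFn fun j => (A i j).val
  have hA : AL ∈ tuples (tuples (List.range l) r) r := mem_tuples.2 ⟨by simp [AL], fun s hs => by
    obtain ⟨i, rfl⟩ := List.mem_ofFn.1 hs
    exact ofFn_mem _⟩
  have key := fun i hi => hc (ex x i) _ _ _ hφ (hb i hi)
  refine List.ne_nil_of_mem (List.mem_flatMap.2 ⟨ps, mem_tuples.2 ⟨by simp [ps], fun p hp' => ?_⟩,
    List.mem_map.2 ⟨AL, List.mem_filter.2 ⟨hA, (W.π'.hasPt_iff W.inc ι _).2 ⟨P, p1, ?_⟩⟩, rfl⟩⟩)
  · obtain ⟨i, -, rfl⟩ := List.mem_map.1 hp'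
    exact hp _
  refine (indR_iff h hφ _ hA (ex x) fun i hi => ?_).2 ⟨fun i hi => ?_, (ind_iff r _).2 ?_,
    fun i hi => (pred_smul _ _).2 ?_⟩
  · rw [getD_map_range _ _ hi]
    exact (key i hi).2
  · rw [getD_map_range _ _ hi]
    exact (key i hi).1
  · rwa [funext hx]
  · have e : AL.getD i [] = List.ofFn fun j => (A ⟨i, hi⟩ j).val := by
      simp [AL, List.getD_eq_getElem?_getD, hi]
    rw [sum_cast (l := l) r (fun j => (AL.getD i []).getD j 0) fun j => S (ex x j), e]
    simp only [ofFn_cast, hx]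
    exact (hx ⟨i, hi⟩).trans (h2 _)

end sk

theorem skel : StmtSKEL := by
  intro F k _ _ _ D π ι l V R _ u pats dat tst M _ _ Rp S T h hT hR
  obtain ⟨hf, hc⟩ := card_le h
  have : Module.Finite (ZMod l) M := Module.Finite.of_finite
  have hn : Module.finrank (ZMod l) M ≤ R := by
    rw [Module.natCard_eq_pow_finrank (K := ZMod l), Nat.card_zmod] at hc
    exact (Nat.pow_le_pow_iff_right (Fact.out : l.Prime).one_lt).1 (hc.trans hR)
  clear hR
  induction R with
  | zero =>
    have : Subsingleton M := Module.finrank_zero_iff.1 (Nat.le_zero.1 hn)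
    rw [Subsingleton.elim T 0, map_zero, search, Nat.cast_zero]
  | succ R ih =>
    rw [search]
    split_ifs with e
    · refine ih (Nat.le_of_lt_succ (lt_of_le_of_ne hn fun e' => ?_))
      let b := Module.finBasisOfFinrankEq (ZMod l) M e'
      obtain ⟨b', hb, -⟩ := trace_eq hT e'.symm b.linearIndependent
      refine complete h b (fun i j => b'.repr (b i) j) b.linearIndependent (fun i => ?_)
        (List.isEmpty_iff.1 e)
      simp only [← hb]
      exact (b'.sum_repr _).symm
    · obtain ⟨t, s, hs⟩ := List.exists_cons_of_ne_nil (mt List.isEmpty_iff.2 e)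
      obtain ⟨x, A, h1, h2, h3⟩ := sound h (hs ▸ List.mem_cons_self : t ∈ _)
      obtain ⟨b, hb, e2⟩ := trace_eq hT
        (le_antisymm (by simpa using h1.fintype_card_le_finrank) hn) h1
      rw [hs, List.headD_cons, h3, e2]
      refine Finset.sum_congr rfl fun i _ => ?_
      rw [h2 i]
      simp only [← hb]
      rw [b.repr_sum_self]

end Pool.Agent.MP_cce4c9_lc.H44
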